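import Pool.Agent.QPI.StmtsD

/-!
# Squad QPI, row D_BIT
-/

set_option autoImplicit false

namespace Pool.Agent.QPI.H41

theorem bit_exp (k m d b μ : ℕ) :
    2 * (k + (k * (k + 1) + ((m + 2 * b) * k + b) * (k + 1) + (k + (k + (b + 3))) * μ) + b * μ) +
      16 * μ ^ 2 ≤ 50 * (μ + d + k + m + b + 1) ^ 3 := by
  have h0 : ∀ x y z : ℕ, x ≤ μ + d + k + m + b + 1 → y ≤ μ + d + k + m + b + 1 →
      z ≤ μ + d + k + m + b + 1 → x * y * z ≤ (μ + d + k + m + b + 1) ^ 3 := by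
    intro x y z hx hy hz
    calc x * y * z ≤ (μ + d + k + m + b + 1) * (μ + d + k + m + b + 1) *
          (μ + d + k + m + b + 1) := Nat.mul_le_mul (Nat.mul_le_mul hx hy) hz
      _ = (μ + d + k + m + b + 1) ^ 3 := by ring
  have a1 := h0 k 1 1 (by omega) (by omega) (by omega)
  have a2 := h0 k (k + 1) 1 (by omega) (by omega) (by omega)
  have a3 := h0 m k (k + 1) (by omega) (by omega) (by omega)
  have a4 := h0 b k (k + 1) (by omega) (by omega) (by omega)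
  have a5 := h0 b (k + 1) 1 (by omega) (by omega) (by omega)
  have a6 := h0 k μ 1 (by omega) (by omega) (by omega)
  have a7 := h0 b μ 1 (by omega) (by omega) (by omega)
  have a8 := h0 μ 1 1 (by omega) (by omega) (by omega)
  have a9 := h0 μ μ 1 (by omega) (by omega) (by omega)
  nlinarith [a1, a2, a3, a4, a5, a6, a7, a8, a9]

theorem bit : BitStmt := by
  intro k m M b μ L E Λ hL hE hΛ hμ
  obtain ⟨d, rfl⟩ := Nat.exists_eq_add_of_le hμ
  have hb : 1 ≤ 2 ^ b := Nat.one_le_two_pow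
  have h1 : 1 + m * E * L ≤ 2 ^ (m + 2 * b) := by
    have hm : m + 1 ≤ 2 ^ m := Nat.lt_two_pow_self
    calc 1 + m * E * L ≤ 1 * 1 + m * 2 ^ b * 2 ^ b := by gcongr
      _ ≤ 2 ^ b * 2 ^ b + m * 2 ^ b * 2 ^ b := by gcongr
      _ = (m + 1) * (2 ^ b * 2 ^ b) := by ring
      _ ≤ 2 ^ m * (2 ^ b * 2 ^ b) := by gcongr
      _ = 2 ^ (m + 2 * b) := by ring
  have h2 : k + 1 ≤ 2 ^ k := Nat.lt_two_pow_self
  have h3 : (k + 1).factorial ≤ 2 ^ (k * (k + 1)) := by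
    calc (k + 1).factorial ≤ (k + 1) ^ (k + 1) := Nat.factorial_le_pow _
      _ ≤ (2 ^ k) ^ (k + 1) := by gcongr
      _ = 2 ^ (k * (k + 1)) := by rw [pow_mul]
  have h4 : 3 + 2 * L ≤ 2 ^ (b + 3) := by
    rw [pow_add]
    omega
  have h5 : (4 * μ).factorial ≤ 2 ^ (16 * μ ^ 2) := by
    have hm : 4 * μ ≤ 2 ^ (4 * μ) := Nat.lt_two_pow_self.le
    calc (4 * μ).factorial ≤ (4 * μ) ^ (4 * μ) := Nat.factorial_le_pow _
      _ ≤ (2 ^ (4 * μ)) ^ (4 * μ) := by gcongr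
      _ = 2 ^ (16 * μ ^ 2) := by
        rw [← pow_mul]
        congr 1
        ring
  calc ((k + 1) * ((k + 1).factorial * ((1 + m * E * L) ^ k * L) ^ (k + 1) *
      ((k + 1) * (2 ^ k * (3 + 2 * L))) ^ μ) * Λ ^ μ) ^ 2 * (4 * μ).factorial
      ≤ (2 ^ k * (2 ^ (k * (k + 1)) * ((2 ^ (m + 2 * b)) ^ k * 2 ^ b) ^ (k + 1) *
      (2 ^ k * (2 ^ k * 2 ^ (b + 3))) ^ μ) * (2 ^ b) ^ μ) ^ 2 * 2 ^ (16 * μ ^ 2) := by gcongr
    _ = 2 ^ (2 * (k + (k * (k + 1) + ((m + 2 * b) * k + b) * (k + 1) +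
      (k + (k + (b + 3))) * μ) + b * μ) + 16 * μ ^ 2) := by
      simp only [← pow_mul, ← pow_add]
      congr 1
      ring
    _ ≤ 2 ^ (50 * (μ + d + k + m + b + 1) ^ 3) := Nat.pow_le_pow_right (by norm_num)
      (bit_exp k m d b μ)

end Pool.Agent.QPI.H41
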