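import Pool.Agent.QPI.StmtsD
import Pool.Agent.QPI.Stmts

/-!
# Squad QPI, row D_NRB
-/

set_option autoImplicit false

namespace Pool.Agent.QPI.H41

open MvPolynomial

section il

variable {σ τ : Type} {p q : MvPolynomial σ ℚ} {L L' : ℕ}

theorem il_mul (H : LenStmt) : IL p L → IL q L' → IL (p * q) (L * L') :=
  (H σ σ p q L L').2.1

theorem il_nat (H : LenStmt) (a : ℕ) : IL (a : MvPolynomial σ ℚ) a :=
  (H σ σ 0 0 0 0).2.2.2.2.1 a

theorem il_X (H : LenStmt) (s : σ) : IL (X s : MvPolynomial σ ℚ) 1 :=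
  (H σ σ 0 0 0 0).2.2.2.2.2.1 s

theorem il_sub (H : LenStmt) (φ : σ → MvPolynomial τ ℚ) {Λ d : ℕ} : 1 ≤ Λ → (∀ v, IL (φ v) Λ) →
    (∀ α ∈ p.support, α.degree ≤ d) → IL p L → IL (aeval φ p) (L * Λ ^ d) :=
  (H σ τ p 0 L 0).2.2.2.2.2.2 φ Λ d

theorem il_Xpow (H : LenStmt) (s : σ) (n : ℕ) : IL ((X s : MvPolynomial σ ℚ) ^ n) 1 := by
  induction n with
  | zero =>
    have h1 := il_nat (σ := σ) H 1
    rw [Nat.cast_one] at h1
    rw [pow_zero]
    exact h1
  | succ n ih =>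
    rw [pow_succ]
    exact il_mul H ih (il_X H s)

theorem il_rename (H : LenStmt) (f : σ → τ) (hp : IL p L) : IL (rename f p) L := by
  have h1 : rename f p = aeval (fun s => (X (f s) : MvPolynomial τ ℚ)) p := by
    rw [rename_eq_aeval]
    rfl
  rw [h1]
  have h2 := il_sub H (fun s => (X (f s) : MvPolynomial τ ℚ)) (d := p.totalDegree) le_rfl
    (fun v => il_X H (f v)) (fun α hα => le_totalDegree hα) hp
  rw [one_pow, mul_one] at h2
  exact h2

end il

section deg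

variable {N₁ N₂ : ℕ}

theorem weight_eq (α : Fin N₁ ⊕ Fin N₂ →₀ ℕ) :
    Finsupp.weight (wt : Fin N₁ ⊕ Fin N₂ → ℕ) α = ∑ v, α v * wt v := by
  rw [Finsupp.weight_apply, Finsupp.sum_fintype]
  · rfl
  · intro i
    rw [zero_smul]

theorem one_le_wt (v : Fin N₁ ⊕ Fin N₂) : 1 ≤ wt v := by
  rcases v with u | v
  · exact le_rfl
  · exact one_le_two

theorem degree_le (α : Fin N₁ ⊕ Fin N₂ →₀ ℕ) :
    α.degree ≤ Finsupp.weight (wt : Fin N₁ ⊕ Fin N₂ → ℕ) α := by
  rw [weight_eq, Finsupp.degree_eq_sum]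
  refine Finset.sum_le_sum fun v _ => ?_
  have := one_le_wt v
  nlinarith

theorem form_deg {ι : Type} [Fintype ι] (l : Fin N₁ → ι → ℚ) (A : Fin N₂ → Matrix ι ι ℚ)
    (v : Fin N₁ ⊕ Fin N₂) : (form l A v).totalDegree ≤ wt v := by
  rcases v with u | v
  · show (∑ s, C (l u s) * X s : MvPolynomial ι ℚ).totalDegree ≤ 1
    refine totalDegree_finsetSum_le fun s _ => ?_
    refine (totalDegree_mul _ _).trans ?_
    rw [totalDegree_C, totalDegree_X]
  · show (∑ s, ∑ s', C (A v s s') * X s * X s' : MvPolynomial ι ℚ).totalDegree ≤ 2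
    refine totalDegree_finsetSum_le fun s _ => totalDegree_finsetSum_le fun s' _ => ?_
    refine (totalDegree_mul _ _).trans ?_
    have h1 := totalDegree_mul (C (A v s s') : MvPolynomial ι ℚ) (X s)
    rw [totalDegree_C, totalDegree_X] at h1
    rw [totalDegree_X]
    omega

theorem aeval_deg {ι : Type} [Fintype ι] (l : Fin N₁ → ι → ℚ) (A : Fin N₂ → Matrix ι ι ℚ)
    {p : MvPolynomial (Fin N₁ ⊕ Fin N₂) ℚ} {μ : ℕ}
    (hp : IsWeightedHomogeneous (wt : Fin N₁ ⊕ Fin N₂ → ℕ) p μ) :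
    (aeval (form l A) p).totalDegree ≤ μ := by
  rw [aeval_def, eval₂_eq']
  refine totalDegree_finsetSum_le fun α hα => ?_
  refine (totalDegree_mul _ _).trans ?_
  have h1 : (algebraMap ℚ (MvPolynomial ι ℚ) (coeff α p)).totalDegree = 0 := totalDegree_C _
  rw [h1, zero_add]
  refine (totalDegree_finsetProd _ _).trans ?_
  have h2 : Finsupp.weight (wt : Fin N₁ ⊕ Fin N₂ → ℕ) α = μ := hp (mem_support_iff.1 hα)
  rw [← h2, weight_eq]
  refine Finset.sum_le_sum fun v _ => ?_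
  refine (totalDegree_pow _ _).trans ?_
  exact Nat.mul_le_mul_left _ (form_deg l A v)

end deg

theorem nrb (HN : NrmStmt) (H : LenStmt) (HE : ExbStmt) : NrbStmt := by
  intro N₁ N₂ ι _ _ l A p μ L Λ hA hΛ hform hp hwh
  rw [(HN N₁ N₂ ι l A hA p μ hwh).1]
  have h1 : IL (aeval (form l A) p) (L * Λ ^ μ) := by
    refine il_sub H _ hΛ hform (fun α hα => ?_) hp
    have h2 : Finsupp.weight (wt : Fin N₁ ⊕ Fin N₂ → ℕ) α = μ := hwh (mem_support_iff.1 hα)
    rw [← h2]
    exact degree_le α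
  have h2 : IL ((X none : MvPolynomial (Option ι) ℚ) ^ μ * rename some (aeval (form l A) p))
      (L * Λ ^ μ) := by
    have h3 := il_mul H (il_Xpow H (none : Option ι) μ) (il_rename H some h1)
    rw [one_mul] at h3
    exact h3
  have h3 : IL (((X none : MvPolynomial (Option ι) ℚ) ^ μ * rename some (aeval (form l A) p)) ^ 2)
      ((L * Λ ^ μ) ^ 2) := by
    rw [pow_two, pow_two]
    exact il_mul H h2 h2
  have h4 : (((X none : MvPolynomial (Option ι) ℚ) ^ μ *
      rename some (aeval (form l A) p)) ^ 2).totalDegree ≤ 4 * μ := by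
    refine (totalDegree_pow _ _).trans ?_
    have h5 := totalDegree_mul ((X none : MvPolynomial (Option ι) ℚ) ^ μ)
      (rename some (aeval (form l A) p))
    have h6 := totalDegree_pow (X none : MvPolynomial (Option ι) ℚ) μ
    rw [totalDegree_X, mul_one] at h6
    have h7 := totalDegree_rename_le (some : ι → Option ι) (aeval (form l A) p)
    have h8 := aeval_deg l A hwh
    omega
  obtain ⟨z, hz, hb⟩ := HE (Option ι) _ ((L * Λ ^ μ) ^ 2) (4 * μ) h3
    (fun α hα => (le_totalDegree hα).trans h4)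
  refine ⟨z, hz, ?_⟩
  exact_mod_cast hb

end Pool.Agent.QPI.H41
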