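import Pool.Agent.QPI.StmtsD

/-!
# Squad QPI, row D_SBW
-/

set_option autoImplicit false

namespace Pool.Agent.QPI.H41

open MvPolynomial

section sb

variable {σ : Type} {g h : PowerSeries (MvPolynomial σ ℚ)} {a a' c c' L : ℕ}

theorem sb_add (H : SbcStmt) : SB g a c → SB h a' c → SB (g + h) (a + a') c :=
  (H σ g h a a' c 0 0).1

theorem sb_mul (H : SbcStmt) : SB g a c → SB h a' c' → SB (g * h) (a * a') (c + c') :=
  (H σ g h a a' c c' 0).2.1

theorem sb_th (H : SbcStmt) : SB g a c → SB (th g) a (2 * c) :=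
  (H σ g 0 a 0 c 0 0).2.2.1

theorem sb_neg (H : SbcStmt) : SB g a c → SB (-g) a c :=
  (H σ g 0 a 0 c 0 0).2.2.2.1

theorem sb_mono (H : SbcStmt) : a ≤ a' → c ≤ c' → SB g a c → SB g a' c' :=
  (H σ g 0 a a' c c' 0).2.2.2.2.1

theorem sb_nat (H : SbcStmt) (n : ℕ) : SB (n : PowerSeries (MvPolynomial σ ℚ)) n 0 :=
  (H σ 0 0 0 0 0 0 0).2.2.2.2.2.1 n

theorem sb_inv (H : SbcStmt) : 1 ≤ L → PowerSeries.constantCoeff g = 1 → SB g L 1 →
    SB (PowerSeries.invOfUnit g 1) 1 (2 * L) :=
  (H σ g 0 0 0 0 0 L).2.2.2.2.2.2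

theorem sb_sum (H : SbcStmt) {J : Type} (s : Finset J) (F : J → PowerSeries (MvPolynomial σ ℚ))
    (hF : ∀ j ∈ s, SB (F j) a c) : SB (∑ j ∈ s, F j) (s.card * a) c := by
  classical
  induction s using Finset.induction_on with
  | empty =>
    rw [Finset.sum_empty, Finset.card_empty, zero_mul]
    have h1 := sb_nat (σ := σ) H 0
    rw [Nat.cast_zero] at h1
    exact sb_mono H le_rfl (Nat.zero_le c) h1
  | insert j s hj ih =>
    rw [Finset.sum_insert hj, Finset.card_insert_of_notMem hj]
    have h1 := sb_add H (hF j (Finset.mem_insert_self j s))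
      (ih fun i hi => hF i (Finset.mem_insert_of_mem hi))
    have h2 : a + s.card * a = (s.card + 1) * a := by ring
    rw [h2] at h1
    exact h1

theorem sb_prod (H : SbcStmt) {J : Type} (s : Finset J) (F : J → PowerSeries (MvPolynomial σ ℚ))
    (hF : ∀ j ∈ s, SB (F j) a c) : SB (∏ j ∈ s, F j) (a ^ s.card) (s.card * c) := by
  classical
  induction s using Finset.induction_on with
  | empty =>
    rw [Finset.prod_empty, Finset.card_empty, pow_zero, zero_mul]
    have h1 := sb_nat (σ := σ) H 1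
    rw [Nat.cast_one] at h1
    exact h1
  | insert j s hj ih =>
    rw [Finset.prod_insert hj, Finset.card_insert_of_notMem hj]
    have h1 := sb_mul H (hF j (Finset.mem_insert_self j s))
      (ih fun i hi => hF i (Finset.mem_insert_of_mem hi))
    have h2 : a * a ^ s.card = a ^ (s.card + 1) := by ring
    have h3 : c + s.card * c = (s.card + 1) * c := by ring
    rw [h2, h3] at h1
    exact h1

end sb

/-- the constant coefficient of `hat X p` -/
theorem hat_cc {N₁ N₂ : ℕ} (p : MvPolynomial (Fin N₁ ⊕ Fin N₂) ℚ) :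
    PowerSeries.constantCoeff (hat (S := MvPolynomial (Fin N₁ ⊕ Fin N₂) ℚ) X p) =
      C (constantCoeff p) := by
  induction p using MvPolynomial.induction_on with
  | C a =>
    unfold hat
    rw [aeval_C, constantCoeff_C]
    rfl
  | add p q hp hq => rw [map_add, map_add, hp, hq, map_add, map_add]
  | mul_X p v hp =>
    rw [map_mul, map_mul, map_mul, constantCoeff_X, mul_zero, map_zero]
    have h1 : PowerSeries.constantCoeff
        (hat (S := MvPolynomial (Fin N₁ ⊕ Fin N₂) ℚ) X (X v)) = 0 := by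
      unfold hat
      rw [aeval_X, map_mul, map_pow, PowerSeries.constantCoeff_X, zero_pow, zero_mul]
      rcases v with u | v
      · exact one_ne_zero
      · exact two_ne_zero
    rw [h1, mul_zero]

theorem sbw (H : SbcStmt) (HT : HtlStmt) : SbwStmt := by
  intro N₁ N₂ k m s L E τ R f e t μ hL hf hR hfL hE hs
  have hfh : ∀ j, SB (hat X (f j)) L 1 := fun j => HT N₁ N₂ L (f j) (hfL j)
  have hRh : ∀ i, SB (hat X (R i)) L 1 := fun i => HT N₁ N₂ L (R i) (hR i)
  have hD : ∀ i, SB (dlog (fun j => hat X (f j)) (e i)) (m * E * L) (2 + 2 * L) := by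
    intro i
    have h1 : ∀ j ∈ (Finset.univ : Finset (Fin m)),
        SB ((e i j : PowerSeries (MvPolynomial (Fin N₁ ⊕ Fin N₂) ℚ)) *
          (th (hat X (f j)) * PowerSeries.invOfUnit (hat X (f j)) 1)) (E * L) (2 + 2 * L) := by
      intro j _
      have h2 := sb_inv H hL (by rw [hat_cc, hf j, C_1]) (hfh j)
      have h3 := sb_mul H (sb_nat H (e i j)) (sb_mul H (sb_th H (hfh j)) h2)
      refine sb_mono H ?_ ?_ h3
      · rw [mul_one]
        exact Nat.mul_le_mul_right L (hE i j)
      · omega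
    have h2 := sb_sum H Finset.univ _ h1
    rw [Finset.card_univ, Fintype.card_fin, ← mul_assoc] at h2
    exact h2
  have hP : ∀ i a, SB (Pa (dlog (fun j => hat X (f j)) (e i)) (hat X (R i)) a)
      ((1 + m * E * L) ^ a * L) (2 ^ a * (3 + 2 * L)) := by
    intro i a
    induction a with
    | zero =>
      rw [pow_zero, one_mul, pow_zero, one_mul]
      exact sb_mono H le_rfl (by omega) (hRh i)
    | succ a ih =>
      have h1 : 1 ≤ 2 ^ a := Nat.one_le_two_pow
      have h2 := sb_mul H (hD i) ih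
      have h3 := sb_mono H le_rfl (c' := 2 * (2 ^ a * (3 + 2 * L))) (by nlinarith) h2
      have h4 := sb_add H (sb_th H ih) h3
      refine sb_mono H (le_of_eq ?_) (le_of_eq ?_) h4
      · ring
      · ring
  have hone : 1 ≤ (1 + m * E * L) ^ k * L := Nat.mul_pos (Nat.pow_pos (by omega)) hL
  have hEnt : ∀ (a b : Fin s), SB (Pa (dlog (fun j => hat X (f j)) (e (t b))) (hat X (R (t b))) a)
      ((1 + m * E * L) ^ k * L) (2 ^ k * (3 + 2 * L)) := by
    intro a b
    have ha : (a : ℕ) ≤ k := by
      have := a.isLt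
      omega
    refine sb_mono H ?_ ?_ (hP (t b) a)
    · exact Nat.mul_le_mul_right L (Nat.pow_le_pow_right (by omega) ha)
    · exact Nat.mul_le_mul_right _ (Nat.pow_le_pow_right (by omega) ha)
  have hdet : SB (WW (fun i => hat X (R i)) (fun j => hat X (f j)) e t)
      ((k + 1).factorial * ((1 + m * E * L) ^ k * L) ^ (k + 1))
      ((k + 1) * (2 ^ k * (3 + 2 * L))) := by
    unfold WW
    rw [Matrix.det_apply]
    have h1 : ∀ π ∈ (Finset.univ : Finset (Equiv.Perm (Fin s))),
        SB (Equiv.Perm.sign π • ∏ i, Matrix.of (fun a b : Fin s =>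
          Pa (dlog (fun j => hat X (f j)) (e (t b))) (hat X (R (t b))) a) (π i) i)
        (((1 + m * E * L) ^ k * L) ^ (k + 1)) ((k + 1) * (2 ^ k * (3 + 2 * L))) := by
      intro π _
      have h2 := sb_prod H (Finset.univ : Finset (Fin s)) (fun i => Matrix.of (fun a b : Fin s =>
          Pa (dlog (fun j => hat X (f j)) (e (t b))) (hat X (R (t b))) a) (π i) i)
          (fun i _ => hEnt (π i) i)
      rw [Finset.card_univ, Fintype.card_fin] at h2
      have h3 := sb_mono H (Nat.pow_le_pow_right hone hs) (Nat.mul_le_mul_right _ hs) h2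
      rcases Int.units_eq_one_or (Equiv.Perm.sign π) with h4 | h4
      · rw [h4, one_smul]
        exact h3
      · rw [h4, Units.neg_smul, one_smul]
        exact sb_neg H h3
    have h2 := sb_sum H Finset.univ _ h1
    rw [Finset.card_univ, Fintype.card_perm, Fintype.card_fin] at h2
    exact sb_mono H (Nat.mul_le_mul_right _ (Nat.factorial_le hs)) le_rfl h2
  exact hdet μ

end Pool.Agent.QPI.H41
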